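import Pool.Agent.H7.LD.Stmts

/-!
Board `ld16`, row ZSU (from helper80): one exceptional vertex
-/

set_option autoImplicit false

open Finset

namespace Pool.LD7

open Pool.Agent.H23.KT Pool.Agent.H46.KW Pool.KQ Pool.GT7 Pool.GU7 Pool.HZ7 Pool.IA7

namespace ZSU80

theorem kc_one_ge {V : Type} (G : SimpleGraph V) (W : Finset V) : W.card ≤ kc G W 1 := by
  classical
  unfold kc
  rw [Finset.filter_true_of_mem, Finset.card_powersetCard, Nat.choose_one_right]
  intro S hS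
  rw [Finset.mem_powersetCard] at hS
  obtain ⟨x, rfl⟩ := Finset.card_eq_one.1 hS.2
  rw [Finset.coe_singleton]
  exact SimpleGraph.isClique_singleton x

theorem pow_up (e : ℝ) (h0 : 0 ≤ e) (h1 : e ≤ 1) (n : ℕ) :
    (1 + e) ^ n ≤ 1 + ((2 : ℝ) ^ n - 1) * e := by
  induction n with
  | zero => simp
  | succ n ih =>
    have h2 : (1 : ℝ) ≤ 2 ^ n := one_le_pow₀ (by norm_num)
    have h3 : (1 + e) ^ (n + 1) ≤ (1 + ((2 : ℝ) ^ n - 1) * e) * (1 + e) := by
      rw [pow_succ]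
      exact mul_le_mul_of_nonneg_right ih (by linarith)
    have h4 : ((2 : ℝ) ^ n - 1) * e * e ≤ ((2 : ℝ) ^ n - 1) * e * 1 :=
      mul_le_mul_of_nonneg_left h1 (mul_nonneg (by linarith) h0)
    have h5 : (2 : ℝ) ^ (n + 1) = 2 * 2 ^ n := by ring
    rw [h5]
    nlinarith

theorem pow_dn (e : ℝ) (h1 : e ≤ 1) (n : ℕ) : 1 - (n : ℝ) * e ≤ (1 - e) ^ n := by
  have h := one_add_mul_le_pow (a := -e) (by linarith) n
  have e1 : (1 + -e) = 1 - e := by ring
  rw [e1] at h
  linarith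

theorem fin_calc (q φ e a n N S T L K δ : ℝ) (m : ℕ) (hq : q = (m : ℝ) + 2) (hφ0 : 0 < φ)
    (hφ : φ ≤ 1 / 2) (he0 : 0 ≤ e) (he : e ≤ 1 / 2) (ha : 0 < a) (hn : 0 ≤ n)
    (hn' : n ≤ (q + 1) * ((1 + e) * a)) (hN : N ≤ ((1 + e) * a) ^ (m + 3))
    (h1 : S + L / (2 * (q + 1)) ≤ N * (q * (1 - φ)) + φ * q * T)
    (h2 : ((1 - e) * a) ^ (m + 2) * n ≤ S + K * a ^ (m + 2))
    (hD : (2 * q * (q + 1) + 2 ^ (m + 3) * q) * e ≤ δ / 2) (hK : K ≤ δ / 2 * a) :
    n + 1 / (2 * (q + 1)) * L / a ^ (m + 2) ≤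
      q * (1 - φ) * a + q * φ * a / a ^ (m + 3) * T + δ * a := by
  have hq0 : 0 < q := by
    rw [hq]
    positivity
  have hap : 0 < a ^ (m + 2) := pow_pos ha _
  have hφ1 : 0 ≤ q * (1 - φ) := mul_nonneg hq0.le (by linarith)
  have hφ2 : q * (1 - φ) ≤ q := by nlinarith
  -- everything times a ^ (m + 2)
  have h3 : (1 - e) ^ (m + 2) * n * a ^ (m + 2) + L / (2 * (q + 1)) ≤
      (1 + e) ^ (m + 3) * a * (q * (1 - φ)) * a ^ (m + 2) + φ * q * T + K * a ^ (m + 2) := by
    have h4 : N * (q * (1 - φ)) ≤ ((1 + e) * a) ^ (m + 3) * (q * (1 - φ)) :=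
      mul_le_mul_of_nonneg_right hN hφ1
    have h5 : ((1 + e) * a) ^ (m + 3) * (q * (1 - φ)) =
        (1 + e) ^ (m + 3) * a * (q * (1 - φ)) * a ^ (m + 2) := by
      rw [mul_pow]
      ring
    have h6 : ((1 - e) * a) ^ (m + 2) * n = (1 - e) ^ (m + 2) * n * a ^ (m + 2) := by
      rw [mul_pow]
      ring
    rw [h6] at h2
    rw [h5] at h4
    linarith
  have h7 : (1 - e) ^ (m + 2) * n + 1 / (2 * (q + 1)) * L / a ^ (m + 2) ≤
      (1 + e) ^ (m + 3) * a * (q * (1 - φ)) + q * φ * a / a ^ (m + 3) * T + K := by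
    have e1 : ((1 - e) ^ (m + 2) * n + 1 / (2 * (q + 1)) * L / a ^ (m + 2)) =
        ((1 - e) ^ (m + 2) * n * a ^ (m + 2) + L / (2 * (q + 1))) / a ^ (m + 2) := by
      field_simp
    have e2 : (1 + e) ^ (m + 3) * a * (q * (1 - φ)) + q * φ * a / a ^ (m + 3) * T + K =
        ((1 + e) ^ (m + 3) * a * (q * (1 - φ)) * a ^ (m + 2) + φ * q * T + K * a ^ (m + 2)) /
          a ^ (m + 2) := by
      field_simp
      ring
    rw [e1, e2]
    exact div_le_div_of_nonneg_right h3 hap.le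
  have h8 : 1 - q * e ≤ (1 - e) ^ (m + 2) := by
    have := pow_dn e (by linarith) (m + 2)
    push_cast at this
    rw [hq]
    exact this
  have h9 : (1 + e) ^ (m + 3) ≤ 1 + 2 ^ (m + 3) * e := by
    have := pow_up e he0 (by linarith) (m + 3)
    nlinarith
  have h10 : (1 - q * e) * n ≤ (1 - e) ^ (m + 2) * n := mul_le_mul_of_nonneg_right h8 hn
  have h11 : (1 + e) ^ (m + 3) * (a * (q * (1 - φ))) ≤
      (1 + 2 ^ (m + 3) * e) * (a * (q * (1 - φ))) :=
    mul_le_mul_of_nonneg_right h9 (mul_nonneg ha.le hφ1)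
  have h12 : q * e * n ≤ q * e * ((q + 1) * (2 * a)) := by
    refine mul_le_mul_of_nonneg_left (hn'.trans ?_) (mul_nonneg hq0.le he0)
    refine mul_le_mul_of_nonneg_left ?_ (by linarith)
    exact mul_le_mul_of_nonneg_right (by linarith) ha.le
  have h13 : 2 ^ (m + 3) * e * (a * (q * (1 - φ))) ≤ 2 ^ (m + 3) * e * (a * q) := by
    refine mul_le_mul_of_nonneg_left ?_ (by positivity)
    exact mul_le_mul_of_nonneg_left hφ2 ha.le
  have h14 : (2 * q * (q + 1) + 2 ^ (m + 3) * q) * e * a ≤ δ / 2 * a :=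
    mul_le_mul_of_nonneg_right hD ha.le
  nlinarith

end ZSU80

theorem zsu_thm (hPWN : PWNStmt) (hEXB : EXBStmt) (hTRV : TRVStmt) : ZSUStmt := by
  intro p r hpr δ hδ
  obtain ⟨hφ0, hφ1, hpw1, hpw2⟩ := hPWN p r hpr
  set q : ℝ := (p : ℝ) + 2 with hq
  have hq0 : 0 < q := by
    rw [hq]
    positivity
  set D : ℝ := 2 * q * (q + 1) + 2 ^ (p + 3) * q with hD
  have hD0 : 0 < D := by
    rw [hD]
    positivity
  refine ⟨min (1 / 2) (δ / (2 * D)), lt_min (by norm_num) (by positivity), min_le_left _ _, ?_⟩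
  intro C hC
  set K : ℝ := ((p : ℝ) + 3) * C * 2 ^ (p + 1) with hK
  have hK0 : 0 < K := by
    rw [hK]
    positivity
  obtain ⟨a₁, ha₁⟩ := exists_nat_ge (2 * K / δ)
  refine ⟨max 1 a₁, ?_⟩
  intro a ha V _ G e f C' W P U he0 he hS hCB z hz
  have ha1 : 1 ≤ a := le_trans (le_max_left _ _) ha
  have ha2 : a₁ ≤ a := le_trans (le_max_right _ _) ha
  have haR : (0 : ℝ) < a := by exact_mod_cast ha1
  have heh : e ≤ 1 / 2 := he.trans (min_le_left _ _)
  have heD : e ≤ δ / (2 * D) := he.trans (min_le_right _ _)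
  have hKa : K ≤ δ / 2 * a := by
    have h1 : 2 * K / δ ≤ (a : ℝ) := ha₁.trans (by exact_mod_cast ha2)
    rw [div_le_iff₀ hδ] at h1
    linarith
  have hDe : D * e ≤ δ / 2 := by
    have h1 : D * e ≤ D * (δ / (2 * D)) := mul_le_mul_of_nonneg_left heD hD0.le
    have h2 : D * (δ / (2 * D)) = δ / 2 := by
      field_simp
    linarith
  -- z is outside of the parts
  have hzX : z ∉ un P := by
    intro h
    unfold un at h
    obtain ⟨i, -, hi⟩ := Finset.mem_biUnion.1 h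
    exact Finset.disjoint_left.1 (hS.disU i) hi hz
  have hzW : z ∈ W := (hS.cov z).2 (Or.inl hz)
  have hXW : un P ⊆ W := by
    intro y hy
    unfold un at hy
    obtain ⟨i, -, hi⟩ := Finset.mem_biUnion.1 hy
    exact (hS.cov y).2 (Or.inr ⟨i, hi⟩)
  -- at most p + 2 neighbours
  have hB : ∀ L ∈ clq G (un P) (p + 3), (nb G L z).card ≤ p + 2 := by
    intro L hL
    rw [mem_clq] at hL
    obtain ⟨hLX, hLc, hLq⟩ := hL
    by_contra hcon
    have h1 : (nb G L z).card ≤ L.card := Finset.card_le_card (nb_subset G L z)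
    have h2 : nb G L z = L := Finset.eq_of_subset_of_card_le (nb_subset G L z) (by omega)
    have h3 : G.IsClique ((insert z L : Finset V) : Set V) := by
      rw [Finset.coe_insert, SimpleGraph.isClique_insert]
      refine ⟨hLq, fun y hy _ => ?_⟩
      have hy' : y ∈ nb G L z := by
        rw [h2]
        exact hy
      exact ((mem_nb G).1 hy').2
    have h4 := hCB (insert z L) (Finset.insert_subset hzW (hLX.trans hXW)) h3
    rw [Finset.card_insert_of_notMem (fun h => hzX (hLX h))] at h4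
    omega
  -- the sum of PWN
  have hsum : (∑ L ∈ clq G (un P) (p + 3), ((nb G L z).card : ℝ)) +
      (nlow G p (un P) z : ℝ) / (2 * (q + 1)) ≤
      (kc G (un P) (p + 3) : ℝ) * (q * (1 - ph p r)) + ph p r * q * TZ G p r (un P) z := by
    have h1 : (nlow G p (un P) z : ℝ) / (2 * (q + 1)) =
        ∑ L ∈ clq G (un P) (p + 3),
          (if (nb G L z).card ≤ p + 1 then 1 / (2 * (q + 1)) else 0) := by
      rw [← Finset.sum_filter, Finset.sum_const, nsmul_eq_mul]
      unfold nlow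
      ring
    have h2 : (kc G (un P) (p + 3) : ℝ) * (q * (1 - ph p r)) =
        ∑ L ∈ clq G (un P) (p + 3), (q * (1 - ph p r)) := by
      rw [Finset.sum_const, nsmul_eq_mul, kc_eq]
    have h3 : ph p r * q * TZ G p r (un P) z =
        ∑ L ∈ clq G (un P) (p + 3), ph p r * q * ww p r (nb G L z).card := by
      unfold TZ
      rw [Finset.mul_sum]
    rw [h1, h2, h3, ← Finset.sum_add_distrib, ← Finset.sum_add_distrib]
    refine Finset.sum_le_sum fun L hL => ?_
    have hBL := hB L hL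
    split_ifs with hc
    · have h4 := hpw2 _ hc
      have h5 : (2 * (q + 1)) = 2 * ((p : ℝ) + 3) := by
        rw [hq]
        ring
      rw [h5]
      exact h4
    · rw [add_zero]
      exact hpw1 _ hBL
  have hEx := hEXB G p a e P he0 heh hS.par (fun i => ⟨hS.lo i, hS.hi i⟩) z 1 (by omega)
  have hn1 : ((nb G (un P) z).card : ℝ) ≤ (kc G (nb G (un P) z) 1 : ℝ) := by
    exact_mod_cast ZSU80.kc_one_ge G _
  have h1e : 0 ≤ (1 - e) * (a : ℝ) := mul_nonneg (by linarith) haR.le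
  have hEx2 : ((1 - e) * (a : ℝ)) ^ (p + 2) * ((nb G (un P) z).card : ℝ) ≤
      (∑ L ∈ clq G (un P) (p + 3), ((nb G L z).card : ℝ)) + K * (a : ℝ) ^ (p + 2) := by
    have h1 : ((1 - e) * (a : ℝ)) ^ (p + 2) * ((nb G (un P) z).card : ℝ) ≤
        ((1 - e) * (a : ℝ)) ^ (p + 2) * (kc G (nb G (un P) z) 1 : ℝ) :=
      mul_le_mul_of_nonneg_left hn1 (pow_nonneg h1e _)
    have h2 : p + 3 - 1 = p + 2 := by omega
    rw [h2] at hEx
    have h3 : ((p + 3).choose 1 : ℝ) * (tot G P * (2 * (a : ℝ)) ^ (p + 1)) ≤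
        K * (a : ℝ) ^ (p + 2) := by
      rw [Nat.choose_one_right]
      push_cast
      have h4 : (tot G P : ℝ) * (2 * (a : ℝ)) ^ (p + 1) ≤ C * a * (2 * (a : ℝ)) ^ (p + 1) :=
        mul_le_mul_of_nonneg_right hS.tot (by positivity)
      have h5 : ((p : ℝ) + 3) * ((tot G P : ℝ) * (2 * (a : ℝ)) ^ (p + 1)) ≤
          ((p : ℝ) + 3) * (C * a * (2 * (a : ℝ)) ^ (p + 1)) :=
        mul_le_mul_of_nonneg_left h4 (by positivity)
      refine h5.trans (le_of_eq ?_)
      rw [hK, mul_pow]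
      ring
    have h4 : ∑ L ∈ clq G (un P) (p + 3), (((nb G L z).card.choose 1 : ℕ) : ℝ) =
        ∑ L ∈ clq G (un P) (p + 3), ((nb G L z).card : ℝ) := by
      refine Finset.sum_congr rfl fun L _ => ?_
      rw [Nat.choose_one_right]
    rw [h4] at hEx
    linarith
  -- sizes
  have hprod : (kc G (un P) (p + 3) : ℝ) ≤ ((1 + e) * (a : ℝ)) ^ (p + 3) := by
    have h1 := (hTRV G P hS.par).1
    have h2 : (trv G P).card ≤ ∏ i, (P i).card := by
      classical
      rw [← Fintype.card_piFinset]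
      unfold trv
      exact Finset.card_filter_le _ _
    have h3 : (kc G (un P) (p + 3) : ℝ) ≤ ∏ i, ((P i).card : ℝ) := by
      rw [h1]
      exact_mod_cast h2
    refine h3.trans ?_
    calc ∏ i, ((P i).card : ℝ) ≤ ∏ _i : Fin (p + 3), ((1 + e) * (a : ℝ)) :=
          Finset.prod_le_prod (fun i _ => Nat.cast_nonneg _) (fun i _ => hS.hi i)
      _ = ((1 + e) * (a : ℝ)) ^ (p + 3) := by
          rw [Finset.prod_const, Finset.card_univ, Fintype.card_fin]
  have hcard : ((nb G (un P) z).card : ℝ) ≤ (q + 1) * ((1 + e) * (a : ℝ)) := by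
    have h1 : (nb G (un P) z).card ≤ ∑ i, (P i).card :=
      (Finset.card_le_card (nb_subset G (un P) z)).trans (by
        unfold un
        exact Finset.card_biUnion_le)
    have h2 : ((nb G (un P) z).card : ℝ) ≤ ∑ i, ((P i).card : ℝ) := by exact_mod_cast h1
    refine h2.trans ?_
    calc ∑ i, ((P i).card : ℝ) ≤ ∑ _i : Fin (p + 3), ((1 + e) * (a : ℝ)) :=
          Finset.sum_le_sum fun i _ => hS.hi i
      _ = (q + 1) * ((1 + e) * (a : ℝ)) := by
          rw [Finset.sum_const, Finset.card_univ, Fintype.card_fin, nsmul_eq_mul, hq]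
          push_cast
          ring
  have hfin := ZSU80.fin_calc q (ph p r) e a ((nb G (un P) z).card : ℝ)
    (kc G (un P) (p + 3) : ℝ) (∑ L ∈ clq G (un P) (p + 3), ((nb G L z).card : ℝ))
    (TZ G p r (un P) z) (nlow G p (un P) z : ℝ) K δ p hq hφ0 hφ1 he0 heh haR
    (Nat.cast_nonneg _) hcard hprod hsum hEx2 hDe hKa
  have h5 : (2 * (q + 1)) = 2 * ((p : ℝ) + 3) := by
    rw [hq]
    ring
  rw [h5] at hfin
  unfold Mz
  exact hfin

end Pool.LD7
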